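import Pool.Agent.Helper57.QZ.Stmts2

/-! Row EX2 of the sheet `Pool.Agent.Helper57.QZ.Stmts2` (from XR, GD2, TL). -/

set_option autoImplicit false

namespace Pool.Agent.Helper57.QZ

open MeasureTheory Set Filter Topology

namespace EX2

lemma exp_third (x y : ℝ) (h : x + 2 ≤ y) : Real.exp (-y) ≤ 1 / 3 * Real.exp (-x) := by
  have h3 : (3 : ℝ) ≤ Real.exp 2 := by
    have := Real.add_one_le_exp (2 : ℝ)
    linarith
  have h1 : Real.exp (-y) ≤ Real.exp (-x - 2) := Real.exp_le_exp.2 (by linarith)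
  have h2 : Real.exp (-x - 2) = Real.exp (-x) / Real.exp 2 := Real.exp_sub _ _
  have h4 : Real.exp (-x) / Real.exp 2 ≤ Real.exp (-x) / 3 :=
    div_le_div_of_nonneg_left (Real.exp_pos _).le (by norm_num) h3
  linarith

lemma asym (c κ : ℝ) (hc : 0 < c) (hκ : κ ∈ Ioo (0:ℝ) 1) : ∃ T₄ : ℝ, 4 ≤ T₄ ∧
    ∀ T : ℝ, T₄ ≤ T → T ^ (1 - c) + (T * Real.exp (-(Real.log T ^ (1 - κ / 2))) +
      T * Real.exp (-(Real.log T ^ (1 - κ / 2)))) ≤ T * Real.exp (-(Real.log T ^ (1 - κ))) := by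
  have h1 : ∀ᶠ T : ℝ in atTop, 1 ≤ Real.log T := Real.tendsto_log_atTop.eventually_ge_atTop 1
  have h2 : ∀ᶠ T : ℝ in atTop, 3 / c ≤ Real.log T ^ κ :=
    ((tendsto_rpow_atTop hκ.1).comp Real.tendsto_log_atTop).eventually_ge_atTop _
  have h3 : ∀ᶠ T : ℝ in atTop, 3 ≤ Real.log T ^ (κ / 2) :=
    ((tendsto_rpow_atTop (half_pos hκ.1)).comp Real.tendsto_log_atTop).eventually_ge_atTop _
  obtain ⟨T0, hT0⟩ := eventually_atTop.1 (h1.and (h2.and h3))
  refine ⟨max 4 T0, le_max_left _ _, fun T hT => ?_⟩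
  obtain ⟨a1, a2, a3⟩ := hT0 T (le_trans (le_max_right _ _) hT)
  have hT4 : 4 ≤ T := le_trans (le_max_left _ _) hT
  have hTpos : 0 < T := by linarith
  set L := Real.log T with hL
  have hLpos : 0 < L := by linarith
  have e1 : T ^ (1 - c) = T * Real.exp (-(c * L)) := by
    rw [Real.rpow_sub hTpos, Real.rpow_one, div_eq_mul_inv, Real.rpow_def_of_pos hTpos,
      ← Real.exp_neg, mul_comm c L]
  have b1 : 1 ≤ L ^ (1 - κ) := Real.one_le_rpow a1 (by linarith [hκ.2])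
  have p1 : L ^ (1 - κ) * L ^ κ = L := by
    rw [← Real.rpow_add hLpos]
    simp
  have p2 : L ^ (1 - κ) * L ^ (κ / 2) = L ^ (1 - κ / 2) := by
    rw [← Real.rpow_add hLpos]
    congr 1
    ring
  have c1 : L ^ (1 - κ) + 2 ≤ c * L := by
    have : 3 ≤ c * L ^ κ := by
      rw [div_le_iff₀ hc] at a2
      linarith
    have h5 : L ^ (1 - κ) * 3 ≤ L ^ (1 - κ) * (c * L ^ κ) :=
      mul_le_mul_of_nonneg_left this (by linarith)
    have h6 : L ^ (1 - κ) * (c * L ^ κ) = c * L := by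
      calc _ = c * (L ^ (1 - κ) * L ^ κ) := by ring
        _ = c * L := by rw [p1]
    linarith
  have c2 : L ^ (1 - κ) + 2 ≤ L ^ (1 - κ / 2) := by
    have h5 : L ^ (1 - κ) * 3 ≤ L ^ (1 - κ) * L ^ (κ / 2) :=
      mul_le_mul_of_nonneg_left a3 (by linarith)
    rw [p2] at h5
    linarith
  have d1 := exp_third _ _ c1
  have d2 := exp_third _ _ c2
  rw [e1]
  nlinarith [Real.exp_pos (-(L ^ (1 - κ)))]

end EX2

open EX2 in
theorem ex2_of (hXR : ST_XR) (hGD2 : ST_GD2) (hTL : ST_TL) : ST_EX2 := by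
  intro ε hε η hη κ hκ
  obtain ⟨c, T1, hc0, hc1, hT1, hXR⟩ := hXR ε hε
  obtain ⟨C, A1, hC, hA1, hGD⟩ := hGD2 ε hε
  obtain ⟨A2, hA2, hTL⟩ := hTL ε hε (κ / 2) ⟨by linarith [hκ.1], by linarith [hκ.2]⟩ C (η / 2) hC
    (by linarith [hη.1])
  obtain ⟨T4, hT4, hasym⟩ := asym c κ hc0 hκ
  refine ⟨max A1 A2, le_trans hA1 (le_max_left _ _), fun A hA => ?_⟩
  obtain ⟨T2, hT2, hGD⟩ := hGD A (le_trans (le_max_left _ _) hA) (η / 2) (by linarith [hη.1])
  obtain ⟨T3, hT3, hTL⟩ := hTL A (le_trans (le_max_right _ _) hA)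
  refine ⟨max (max T1 T2) (max T3 T4), le_trans hT1 (le_trans (le_max_left _ _)
    (le_max_left _ _)), fun T hT σ hσ => ?_⟩
  have b1 : T1 ≤ T := le_trans (le_trans (le_max_left _ _) (le_max_left _ _)) hT
  have b2 : T2 ≤ T := le_trans (le_trans (le_max_right _ _) (le_max_left _ _)) hT
  have b3 : T3 ≤ T := le_trans (le_trans (le_max_left _ _) (le_max_right _ _)) hT
  have b4 : T4 ≤ T := le_trans (le_trans (le_max_right _ _) (le_max_right _ _)) hT
  obtain ⟨E1, hE1s, hE1v, hE1g⟩ := hXR T b1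
  obtain ⟨u, v, huv, hG⟩ := hGD T b2 σ hσ
  have hu := hTL T b3 u (fun p hp => (huv p hp).1)
  have hv := hTL T b3 v (fun p hp => (huv p hp).2)
  refine ⟨E1 ∪ ({t : ℝ | t ∈ Icc T (2 * T) ∧
    η / 2 ≤ ‖∑ p ∈ Pz (zA A T), u p * Complex.exp (-((t * Real.log p : ℝ) * Complex.I))‖} ∪
    {t : ℝ | t ∈ Icc T (2 * T) ∧
    η / 2 ≤ ‖∑ p ∈ Pz (zA A T), v p * Complex.exp (-((t * Real.log p : ℝ) * Complex.I))‖}),
    ?_, ?_, ?_⟩
  · exact union_subset hE1s (union_subset (fun t ht => ht.1) (fun t ht => ht.1))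
  · refine (measureReal_union_le _ _).trans ?_
    refine (add_le_add hE1v (measureReal_union_le _ _)).trans ?_
    exact (add_le_add le_rfl (add_le_add hu hv)).trans (hasym T b4)
  · intro t ht hE
    simp only [mem_union, mem_setOf_eq, not_or, not_and, not_le] at hE
    obtain ⟨n1, n2, n3⟩ := hE
    obtain ⟨g0, g1, g2⟩ := hG t ht (hE1g t ht n1)
    have n2' := n2 ht
    have n3' := n3 ht
    refine ⟨g0, ?_, ?_⟩
    · have r1 := Complex.abs_re_le_norm
        (∑ p ∈ Pz (zA A T), v p * Complex.exp (-((t * Real.log p : ℝ) * Complex.I)))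
      rw [abs_le] at g2 r1 ⊢
      constructor <;> linarith [g2.1, g2.2, r1.1, r1.2]
    · have r2 := norm_add_le
        (deriv riemannZeta (pt σ t) / riemannZeta (pt σ t) - Wy (zA A T) σ (lin (zA A T) t) -
          ∑ p ∈ Pz (zA A T), u p * Complex.exp (-((t * Real.log p : ℝ) * Complex.I)))
        (∑ p ∈ Pz (zA A T), u p * Complex.exp (-((t * Real.log p : ℝ) * Complex.I)))
      rw [sub_add_cancel] at r2
      linarith

end Pool.Agent.Helper57.QZ
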